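import Mathlib
import Pool.Agent.V1181.Lap
import Pool.Agent.V1181.ConfLen

/-!
# A solution of the Liouville equation on the plane with infinite diameter

Let `f` be the entire function with `f' (z) = exp (cosh z)` and `f 0 = 0`, and let
`u z = Re (cosh z) - log (cosh (Re f z))`. Then `u` solves the Liouville equation, and the metric
`exp (2 u) |dz|^2` is the pull back under `f` of the metric `|dw|^2 / cosh (Re w)^2`. On the lines
`Im z = (2 k + 1) π` the function `Re f` is bounded, and between two consecutive lines `Im f`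
increases by a fixed amount, so that crossing such a strip has a fixed positive cost.
-/

set_option autoImplicit false

namespace Pool.Agent.Results.MP_ae50c7_an.InfiniteDiameter

open Real Set Filter MeasureTheory Topology InnerProductSpace Laplacian Pool.Agent.V1181

theorem exists_f : ∃ f : ℂ → ℂ, f 0 = 0 ∧
    ∀ z, HasDerivAt f (Complex.exp (Complex.cosh z)) z := by
  have hd : Differentiable ℂ fun z : ℂ => Complex.exp (Complex.cosh z) := by fun_prop
  obtain ⟨g, h0, h⟩ := (hd.isExactOn_univ).with_val_at 0 0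
  exact ⟨g, h0, fun z => h z (mem_univ z)⟩

section

variable {f : ℂ → ℂ} (h0 : f 0 = 0) (hf : ∀ z, HasDerivAt f (Complex.exp (Complex.cosh z)) z)

include hf

/-- Derivative along the imaginary direction. -/
theorem deriv_im (z : ℂ) (y : ℝ) : HasDerivAt (fun y : ℝ => f (z + y * Complex.I))
    (Complex.exp (Complex.cosh (z + y * Complex.I)) * Complex.I) y := by
  have h1 : HasDerivAt (fun y : ℝ => z + (y : ℂ) * Complex.I) Complex.I y := by
    have := (Complex.ofRealCLM.hasDerivAt (x := y)).mul_const Complex.I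
    simpa using this.const_add z
  exact (hf _).comp y h1

/-- Derivative along the real direction. -/
theorem deriv_re (z : ℂ) (x : ℝ) : HasDerivAt (fun x : ℝ => f (z + x))
    (Complex.exp (Complex.cosh (z + x))) x := by
  have h1 : HasDerivAt (fun x : ℝ => z + (x : ℂ)) 1 x := by
    have := (Complex.ofRealCLM.hasDerivAt (x := x))
    simpa using this.const_add z
  have h2 := (hf (z + x)).comp x h1
  rw [mul_one] at h2
  exact h2

omit hf in
theorem re_of {g : ℝ → ℂ} {g' : ℂ} {x : ℝ} (h : HasDerivAt g g' x) :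
    HasDerivAt (fun x => (g x).re) g'.re x :=
  Complex.reCLM.hasFDerivAt.comp_hasDerivAt x h

omit hf in
theorem im_of {g : ℝ → ℂ} {g' : ℂ} {x : ℝ} (h : HasDerivAt g g' x) :
    HasDerivAt (fun x => (g x).im) g'.im x :=
  Complex.imCLM.hasFDerivAt.comp_hasDerivAt x h

theorem deriv_im_axis (y : ℝ) : HasDerivAt (fun y : ℝ => f (y * Complex.I))
    ((exp (cos y) : ℝ) * Complex.I) y := by
  have h := deriv_im hf 0 y
  simp only [zero_add, Complex.cosh_mul_I] at h
  simpa using h

include h0

theorem re_axis (y : ℝ) : (f (y * Complex.I)).re = 0 := by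
  have hd : ∀ y : ℝ, HasDerivAt (fun y : ℝ => (f (y * Complex.I)).re) 0 y := by
    intro y
    have := re_of (deriv_im_axis hf y)
    rwa [Complex.re_ofReal_mul, Complex.I_re, mul_zero] at this
  have hc := is_const_of_deriv_eq_zero (fun y => (hd y).differentiableAt) (fun y => (hd y).deriv)
  have := hc y 0
  simpa [h0] using this

omit h0 in
theorem deriv_im_im (y : ℝ) : HasDerivAt (fun y : ℝ => (f (y * Complex.I)).im)
    (exp (cos y)) y := by
  have := im_of (deriv_im_axis hf y)
  rwa [Complex.im_ofReal_mul, Complex.I_im, mul_one] at this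

/-- The vertical period. -/
theorem c_pos : 0 < (f ((2 * π : ℝ) * Complex.I)).im := by
  have hm : StrictMono (fun y : ℝ => (f (y * Complex.I)).im) := by
    refine strictMono_of_deriv_pos fun y => ?_
    rw [(deriv_im_im hf y).deriv]
    exact exp_pos _
  have := hm (show (0 : ℝ) < 2 * π by positivity)
  simpa [h0] using this

theorem shift_one (z : ℂ) : f (z + (2 * π : ℝ) * Complex.I)
    = f z + ((f ((2 * π : ℝ) * Complex.I)).im : ℂ) * Complex.I := by
  have hper : ∀ z : ℂ, Complex.cosh (z + (2 * π : ℝ) * Complex.I) = Complex.cosh z := by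
    intro z
    rw [Complex.cosh_add, Complex.cosh_mul_I, Complex.sinh_mul_I]
    simp
  have hd : ∀ z, HasDerivAt (fun z => f (z + (2 * π : ℝ) * Complex.I) - f z) 0 z := by
    intro z
    have h1 : HasDerivAt (fun z => f (z + (2 * π : ℝ) * Complex.I))
        (Complex.exp (Complex.cosh (z + (2 * π : ℝ) * Complex.I))) z := by
      have h2 : HasDerivAt (fun z : ℂ => z + (2 * π : ℝ) * Complex.I) 1 z :=
        (hasDerivAt_id z).add_const _
      have h3 := (hf (z + (2 * π : ℝ) * Complex.I)).comp z h2
      rw [mul_one] at h3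
      exact h3
    rw [hper] at h1
    have h4 := h1.sub (hf z)
    rw [sub_self] at h4
    exact h4
  have hc := is_const_of_deriv_eq_zero (fun y => (hd y).differentiableAt) (fun y => (hd y).deriv)
  have h1 := hc z 0
  simp only [zero_add, h0, sub_zero] at h1
  have h2 : f ((2 * π : ℝ) * Complex.I) = ((f ((2 * π : ℝ) * Complex.I)).im : ℂ) * Complex.I := by
    apply Complex.ext
    · rw [re_axis h0 hf (2 * π)]
      simp
    · simp
  rw [← h2]
  linear_combination h1

theorem shift (z : ℂ) (j : ℤ) : f (z + j * ((2 * π : ℝ) * Complex.I))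
    = f z + j * (((f ((2 * π : ℝ) * Complex.I)).im : ℂ) * Complex.I) := by
  set c := (f ((2 * π : ℝ) * Complex.I)).im with hc
  set P : ℂ := (2 * π : ℝ) * Complex.I with hP
  have hPne : P ≠ 0 := by
    rw [hP]
    have : (2 * π : ℝ) ≠ 0 := by positivity
    simpa using this
  have hper : Function.Periodic (fun z => f z - (c * Complex.I) / P * z) P := by
    intro z
    simp only
    rw [hP, shift_one h0 hf z, ← hP, ← hc]
    field_simp
    ring
  have := hper.int_mul j z
  have h2 : (c * Complex.I) / P * (z + j * P) = (c * Complex.I) / P * z + j * (c * Complex.I) := by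
    field_simp
  rw [h2] at this
  linear_combination this

theorem im_half : (f (π * Complex.I)).im = (f ((2 * π : ℝ) * Complex.I)).im / 2 := by
  have hd : ∀ y : ℝ, HasDerivAt (fun y : ℝ => (f (y * Complex.I)).im
      + (f ((-y : ℝ) * Complex.I)).im) 0 y := by
    intro y
    have h1 := deriv_im_im hf y
    have h2 := (deriv_im_im hf (-y)).comp y (hasDerivAt_neg y)
    have h3 := h1.add h2
    rw [cos_neg] at h3
    simp only [mul_neg, mul_one, add_neg_cancel] at h3
    exact h3
  have hc := is_const_of_deriv_eq_zero (fun y => (hd y).differentiableAt) (fun y => (hd y).deriv)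
  have h1 := hc π 0
  simp only [Complex.ofReal_zero, zero_mul, h0, Complex.zero_im, neg_zero, add_zero] at h1
  have h2 := shift_one h0 hf (((-π : ℝ) : ℂ) * Complex.I)
  have h3 : ((-π : ℝ) : ℂ) * Complex.I + (2 * π : ℝ) * Complex.I = π * Complex.I := by
    push_cast
    ring
  rw [h3] at h2
  have h4 := congrArg Complex.im h2
  simp only [Complex.add_im, Complex.mul_im, Complex.ofReal_re, Complex.ofReal_im, Complex.I_re,
    Complex.I_im, mul_zero, mul_one, zero_mul, add_zero, zero_add] at h4
  simp only [Complex.ofReal_neg] at h1 h4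
  linarith

/-- On the line `Im z = π`. -/
theorem line_im (x : ℝ) : (f (π * Complex.I + x)).im = (f ((2 * π : ℝ) * Complex.I)).im / 2 := by
  have hd : ∀ x : ℝ, HasDerivAt (fun x : ℝ => (f (π * Complex.I + x)).im) 0 x := by
    intro x
    have := im_of (deriv_re hf (π * Complex.I) x)
    refine this.congr_deriv ?_
    have h1 : Complex.cosh (π * Complex.I + x) = ((- cosh x : ℝ) : ℂ) := by
      rw [Complex.cosh_add, Complex.cosh_mul_I, Complex.sinh_mul_I]
      simp
    rw [h1, ← Complex.ofReal_exp, Complex.ofReal_im]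
  have hc := is_const_of_deriv_eq_zero (fun y => (hd y).differentiableAt) (fun y => (hd y).deriv)
  have h1 := hc x 0
  simp only [Complex.ofReal_zero, add_zero] at h1
  rw [h1, im_half h0 hf]

omit h0 in
theorem line_deriv_re (x : ℝ) : HasDerivAt (fun x : ℝ => (f (π * Complex.I + x)).re)
    (exp (- cosh x)) x := by
  have := re_of (deriv_re hf (π * Complex.I) x)
  refine this.congr_deriv ?_
  have h1 : Complex.cosh (π * Complex.I + x) = ((- cosh x : ℝ) : ℂ) := by
    rw [Complex.cosh_add, Complex.cosh_mul_I, Complex.sinh_mul_I]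
    simp
  rw [h1, ← Complex.ofReal_exp, Complex.ofReal_re]

omit h0 hf in
theorem cosh_ge (x : ℝ) : 1 + x ^ 2 / 2 ≤ cosh x := by
  have h1 : cosh x = cosh (x / 2) ^ 2 + sinh (x / 2) ^ 2 := by
    rw [← Real.cosh_two_mul]
    congr 1
    ring
  rw [Real.cosh_sq] at h1
  have h2 : (x / 2) ^ 2 ≤ sinh (x / 2) ^ 2 := by
    rw [sq_le_sq]
    rcases le_total 0 (x / 2) with h | h
    · rw [abs_of_nonneg h, abs_of_nonneg (Real.sinh_nonneg_iff.2 h)]
      exact Real.self_le_sinh_iff.2 h
    · rw [abs_of_nonpos h, abs_of_nonpos (Real.sinh_nonpos_iff.2 h)]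
      have := Real.sinh_le_self_iff.2 h
      linarith
  nlinarith

omit h0 hf in
theorem exp_neg_cosh_le (x : ℝ) : exp (- cosh x) ≤ 2 * (1 / (1 + x ^ 2)) := by
  have h1 : 1 + x ^ 2 / 2 ≤ cosh x := cosh_ge x
  have h2 : cosh x + 1 ≤ exp (cosh x) := Real.add_one_le_exp _
  rw [exp_neg, mul_one_div, inv_eq_one_div, div_le_div_iff₀ (exp_pos _) (by positivity)]
  nlinarith [sq_nonneg x]

theorem line_re (x : ℝ) : |(f (π * Complex.I + x)).re| ≤ π := by
  have hz : (f (π * Complex.I + (0 : ℝ))).re = 0 := by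
    simpa using re_axis h0 hf π
  have hm1 : Monotone (fun x : ℝ => 2 * arctan x - (f (π * Complex.I + x)).re) := by
    have hd : ∀ x : ℝ, HasDerivAt (fun x : ℝ => 2 * arctan x - (f (π * Complex.I + x)).re)
        (2 * (1 / (1 + x ^ 2)) - exp (- cosh x)) x := fun x =>
      ((Real.hasDerivAt_arctan x).const_mul 2).sub (line_deriv_re hf x)
    refine monotone_of_deriv_nonneg (fun x => (hd x).differentiableAt) fun x => ?_
    rw [(hd x).deriv]
    have := exp_neg_cosh_le x
    linarith
  have hm2 : Monotone (fun x : ℝ => 2 * arctan x + (f (π * Complex.I + x)).re) := by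
    have hd : ∀ x : ℝ, HasDerivAt (fun x : ℝ => 2 * arctan x + (f (π * Complex.I + x)).re)
        (2 * (1 / (1 + x ^ 2)) + exp (- cosh x)) x := fun x =>
      ((Real.hasDerivAt_arctan x).const_mul 2).add (line_deriv_re hf x)
    refine monotone_of_deriv_nonneg (fun x => (hd x).differentiableAt) fun x => ?_
    rw [(hd x).deriv]
    positivity
  have b1 := Real.arctan_lt_pi_div_two x
  have b2 := Real.neg_pi_div_two_lt_arctan x
  have p := Real.pi_pos
  rw [abs_le]
  rcases le_total 0 x with h | h
  · have a1 := hm1 h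
    have a2 := hm2 h
    simp only [arctan_zero, mul_zero, hz] at a1 a2
    constructor <;> linarith
  · have a1 := hm1 h
    have a2 := hm2 h
    simp only [arctan_zero, mul_zero, hz] at a1 a2
    constructor <;> linarith

/-- On the line `Im z = (2 k + 1) π`. -/
theorem on_line {z : ℂ} {k : ℤ} (hz : z.im = (2 * k + 1) * π) :
    |(f z).re| ≤ π ∧ (f z).im = (k + 1 / 2) * (f ((2 * π : ℝ) * Complex.I)).im := by
  have e : z = (π * Complex.I + (z.re : ℂ)) + k * ((2 * π : ℝ) * Complex.I) := by
    apply Complex.ext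
    · simp
    · simp [hz]
      ring
  have h1 := shift h0 hf (π * Complex.I + (z.re : ℂ)) k
  rw [← e] at h1
  rw [h1]
  constructor
  · have := line_re h0 hf z.re
    simpa using this
  · have := line_im h0 hf z.re
    simp only [Complex.add_im, Complex.mul_im, Complex.intCast_re, Complex.intCast_im,
      Complex.ofReal_re, Complex.ofReal_im, Complex.I_re, Complex.I_im, Complex.mul_re,
      mul_zero, mul_one, zero_mul, add_zero, zero_add, sub_zero] at this ⊢
    rw [this]
    ring

end

/-- The conformal factor. -/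
noncomputable def U (f : ℂ → ℂ) (z : ℂ) : ℝ :=
  (Complex.cosh z).re - log (cosh (f z).re)

section

variable {f : ℂ → ℂ} (hf : ∀ z, HasDerivAt f (Complex.exp (Complex.cosh z)) z)

include hf

theorem U_contDiff : ContDiff ℝ (⊤ : ℕ∞) (U f) := by
  have hd : Differentiable ℂ f := fun z => (hf z).differentiableAt
  have h1 : ContDiff ℝ (⊤ : ℕ∞) f := (hd.contDiff (n := (⊤ : ℕ∞))).restrict_scalars ℝ
  have h2 : ContDiff ℝ (⊤ : ℕ∞) Complex.cosh :=
    (Complex.differentiable_cosh.contDiff (n := (⊤ : ℕ∞))).restrict_scalars ℝ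
  have h3 : ContDiff ℝ (⊤ : ℕ∞) (fun z => (f z).re) := Complex.reCLM.contDiff.comp h1
  have h4 : ContDiff ℝ (⊤ : ℕ∞) (fun z => (Complex.cosh z).re) := Complex.reCLM.contDiff.comp h2
  exact h4.sub ((Real.contDiff_cosh.comp h3).log fun z => (Real.cosh_pos _).ne')

omit hf in
theorem exp_U (z : ℂ) : exp (U f z) = ‖Complex.exp (Complex.cosh z)‖ / cosh (f z).re := by
  unfold U
  rw [exp_sub, exp_log (Real.cosh_pos _), Complex.norm_exp]

theorem U_lap (z : ℂ) : Δ (U f) z + exp (2 * U f z) = 0 := by
  have hline : ∀ (w v : ℂ), HasDerivAt (fun t : ℝ => w + t • v) v 0 := by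
    intro w v
    have h1 : HasDerivAt (fun t : ℝ => t • v) ((1 : ℝ) • v) 0 :=
      (hasDerivAt_id (0 : ℝ)).smul_const v
    simpa using h1.const_add w
  have hF : ∀ (w v : ℂ), HasDerivAt (fun t : ℝ => f (w + t • v))
      (Complex.exp (Complex.cosh w) * v) 0 := by
    intro w v
    have h1 : HasDerivAt f (Complex.exp (Complex.cosh w)) (w + (0 : ℝ) • v) := by
      simpa using hf w
    exact h1.comp (0 : ℝ) (hline w v)
  have hC : ∀ (w v : ℂ), HasDerivAt (fun t : ℝ => Complex.cosh (w + t • v))
      (Complex.sinh w * v) 0 := by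
    intro w v
    have h1 : HasDerivAt Complex.cosh (Complex.sinh w) (w + (0 : ℝ) • v) := by
      simpa using Complex.hasDerivAt_cosh w
    exact h1.comp (0 : ℝ) (hline w v)
  have hS : ∀ (w v : ℂ), HasDerivAt (fun t : ℝ => Complex.sinh (w + t • v))
      (Complex.cosh w * v) 0 := by
    intro w v
    have h1 : HasDerivAt Complex.sinh (Complex.cosh w) (w + (0 : ℝ) • v) := by
      simpa using Complex.hasDerivAt_sinh w
    exact h1.comp (0 : ℝ) (hline w v)
  have hE : ∀ (w v : ℂ), HasDerivAt (fun t : ℝ => Complex.exp (Complex.cosh (w + t • v)))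
      (Complex.exp (Complex.cosh w) * (Complex.sinh w * v)) 0 := by
    intro w v
    have h1 : HasDerivAt Complex.exp (Complex.exp (Complex.cosh w))
        (Complex.cosh (w + (0 : ℝ) • v)) := by
      simpa using Complex.hasDerivAt_exp (Complex.cosh w)
    exact h1.comp (0 : ℝ) (hC w v)
  set v : Fin 2 → ℂ := fun i => Complex.orthonormalBasisOneI i with hv
  have hv0 : v 0 = 1 := by simp [hv]
  have hv1 : v 1 = Complex.I := by simp [hv]
  have hcd := U_contDiff hf
  rw [lap_eq Complex.orthonormalBasisOneI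
    (by exact_mod_cast (contDiff_infty.1 hcd 2).contDiffAt)
    (fun i w => (Complex.sinh w * v i).re
      - sinh (f w).re / cosh (f w).re * (Complex.exp (Complex.cosh w) * v i).re)
    (fun i => (Complex.cosh z * v i * v i).re
      - (((Complex.exp (Complex.cosh z) * v i).re / cosh (f z).re ^ 2)
        * (Complex.exp (Complex.cosh z) * v i).re
      + sinh (f z).re / cosh (f z).re
        * (Complex.exp (Complex.cosh z) * (Complex.sinh z * v i) * v i).re))]
  · rw [Fin.sum_univ_two, hv0, hv1]
    have h1 : exp (2 * U f z) = ‖Complex.exp (Complex.cosh z)‖ ^ 2 / cosh (f z).re ^ 2 := by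
      rw [← div_pow, ← exp_U, two_mul, exp_add, sq]
    rw [h1, ← Complex.normSq_eq_norm_sq, Complex.normSq_apply]
    have h2 : cosh (f z).re ≠ 0 := (Real.cosh_pos _).ne'
    generalize Complex.exp (Complex.cosh z) = a
    generalize Complex.cosh z = b
    generalize Complex.sinh z = d
    simp only [Complex.mul_re, Complex.mul_im, Complex.I_re, Complex.I_im, Complex.one_re,
      Complex.one_im]
    field_simp
    ring
  · intro i
    refine Filter.Eventually.of_forall fun w => ?_
    have h1 := Complex.reCLM.hasFDerivAt.comp_hasDerivAt (0 : ℝ) (hC w (v i))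
    have h2 := Complex.reCLM.hasFDerivAt.comp_hasDerivAt (0 : ℝ) (hF w (v i))
    have h3 : HasDerivAt (fun t : ℝ => cosh (f (w + t • v i)).re)
        (sinh (f w).re * (Complex.exp (Complex.cosh w) * v i).re) 0 := by
      have := Real.hasDerivAt_cosh (f (w + (0 : ℝ) • v i)).re
      have h4 := this.comp (0 : ℝ) h2
      exact h4.congr_deriv (by simp)
    have h5 := h1.sub (h3.log (Real.cosh_pos _).ne')
    refine h5.congr_deriv ?_
    simp
    ring
  · intro i
    have h2 : HasDerivAt (fun t : ℝ => (f (z + t • v i)).re)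
        (Complex.exp (Complex.cosh z) * v i).re 0 :=
      Complex.reCLM.hasFDerivAt.comp_hasDerivAt (0 : ℝ) (hF z (v i))
    have h3 : HasDerivAt (fun t : ℝ => cosh (f (z + t • v i)).re)
        (sinh (f z).re * (Complex.exp (Complex.cosh z) * v i).re) 0 := by
      have := Real.hasDerivAt_cosh (f (z + (0 : ℝ) • v i)).re
      have h4 := this.comp (0 : ℝ) h2
      exact h4.congr_deriv (by simp)
    have h3' : HasDerivAt (fun t : ℝ => sinh (f (z + t • v i)).re)
        (cosh (f z).re * (Complex.exp (Complex.cosh z) * v i).re) 0 := by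
      have := Real.hasDerivAt_sinh (f (z + (0 : ℝ) • v i)).re
      have h4 := this.comp (0 : ℝ) h2
      exact h4.congr_deriv (by simp)
    have h6 : HasDerivAt (fun t : ℝ => (Complex.sinh (z + t • v i) * v i).re)
        (Complex.cosh z * v i * v i).re 0 :=
      Complex.reCLM.hasFDerivAt.comp_hasDerivAt (0 : ℝ) ((hS z (v i)).mul_const (v i))
    have h7 : HasDerivAt (fun t : ℝ => (Complex.exp (Complex.cosh (z + t • v i)) * v i).re)
        (Complex.exp (Complex.cosh z) * (Complex.sinh z * v i) * v i).re 0 :=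
      Complex.reCLM.hasFDerivAt.comp_hasDerivAt (0 : ℝ) ((hE z (v i)).mul_const (v i))
    have h8 := h6.sub ((h3'.div h3 (Real.cosh_pos _).ne').mul h7)
    refine h8.congr_deriv ?_
    have h9 : cosh (f z).re ≠ 0 := (Real.cosh_pos _).ne'
    have h10 := Real.cosh_sq (f z).re
    simp only [zero_smul, add_zero, Pi.div_apply]
    field_simp
    rw [h10]
    ring

end

/-- A cut-off in the real direction. -/
noncomputable def chi : ContDiffBump (0 : ℝ) := ⟨π + 1, π + 2, by positivity, by linarith⟩

theorem chi_one {s : ℝ} (h : |s| ≤ π + 1) : chi s = 1 :=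
  chi.one_of_mem_closedBall (x := s) (by simpa [chi] using h)

/-- A smooth step from `-c / 2` to `c / 2`. -/
noncomputable def T (c y : ℝ) : ℝ := c / 2 * (2 * Real.smoothTransition (2 * y / c + 1 / 2) - 1)

theorem T_right {c y : ℝ} (hc : 0 < c) (h : c / 4 ≤ y) : T c y = c / 2 := by
  unfold T
  rw [Real.smoothTransition.one_of_one_le]
  · ring
  · have : 1 / 2 ≤ 2 * y / c := by
      rw [div_le_div_iff₀ (by norm_num) hc]
      linarith
    linarith

theorem T_left {c y : ℝ} (hc : 0 < c) (h : y ≤ - (c / 4)) : T c y = - (c / 2) := by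
  unfold T
  rw [Real.smoothTransition.zero_of_nonpos]
  · ring
  · have : 2 * y / c ≤ - (1 / 2) := by
      rw [div_le_iff₀ hc]
      linarith
    linarith

theorem T_abs {c : ℝ} (hc : 0 < c) (y : ℝ) : |T c y| ≤ c / 2 := by
  unfold T
  have h0 := Real.smoothTransition.nonneg (2 * y / c + 1 / 2)
  have h1 := Real.smoothTransition.le_one (2 * y / c + 1 / 2)
  rw [abs_mul, abs_of_pos (by positivity : 0 < c / 2)]
  have : |2 * Real.smoothTransition (2 * y / c + 1 / 2) - 1| ≤ 1 := by
    rw [abs_le]
    constructor <;> linarith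
  nlinarith

theorem st_deriv_bound : ∃ M : ℝ, 0 ≤ M ∧ ∀ x, |deriv Real.smoothTransition x| ≤ M := by
  have hcd : ContDiff ℝ 1 Real.smoothTransition := by exact_mod_cast Real.smoothTransition.contDiff (n := 1)
  have hc : Continuous (deriv Real.smoothTransition) := hcd.continuous_deriv (le_refl _)
  obtain ⟨M, hM⟩ := (isCompact_Icc (a := (0 : ℝ)) (b := 1)).exists_bound_of_continuousOn
    hc.continuousOn
  refine ⟨max M 0, le_max_right _ _, fun x => ?_⟩
  by_cases h0 : x < 0
  · have : Real.smoothTransition =ᶠ[𝓝 x] fun _ => 0 := by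
      filter_upwards [gt_mem_nhds h0] with y hy using Real.smoothTransition.zero_of_nonpos hy.le
    rw [this.deriv_eq]
    simp
  · by_cases h1 : 1 < x
    · have : Real.smoothTransition =ᶠ[𝓝 x] fun _ => 1 := by
        filter_upwards [lt_mem_nhds h1] with y hy using Real.smoothTransition.one_of_one_le hy.le
      rw [this.deriv_eq]
      simp
    · have := hM x ⟨not_lt.1 h0, not_lt.1 h1⟩
      exact this.trans (le_max_left _ _)

/-- The function of the developing map. -/
noncomputable def Q (c : ℝ) (w : ℂ) : ℝ := chi w.re * T c w.im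

theorem Q_deriv {c : ℝ} (hc : 0 < c) : ∃ K : ℝ, 0 < K ∧ ∀ w : ℂ, ∃ L : ℂ →L[ℝ] ℝ,
    HasFDerivAt (Q c) L w ∧ ‖L‖ ≤ K / cosh w.re := by
  obtain ⟨M, hM0, hM⟩ := st_deriv_bound
  have hchi : ContDiff ℝ 1 (chi : ℝ → ℝ) := by exact_mod_cast chi.contDiff (n := 1)
  have hchid : ∀ s, HasDerivAt (chi : ℝ → ℝ) (deriv chi s) s := fun s =>
    (hchi.differentiable (by norm_num) s).hasDerivAt
  have hc1 : Continuous (fun s => deriv (chi : ℝ → ℝ) s * cosh s) :=
    (hchi.continuous_deriv (le_refl _)).mul Real.continuous_cosh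
  have hs1 : HasCompactSupport (fun s => deriv (chi : ℝ → ℝ) s * cosh s) :=
    chi.hasCompactSupport.deriv.mul_right
  obtain ⟨K1, hK1⟩ := hs1.exists_bound_of_continuous hc1
  have hc2 : Continuous (fun s => (chi : ℝ → ℝ) s * cosh s) :=
    hchi.continuous.mul Real.continuous_cosh
  have hs2 : HasCompactSupport (fun s => (chi : ℝ → ℝ) s * cosh s) :=
    chi.hasCompactSupport.mul_right
  obtain ⟨K2, hK2⟩ := hs2.exists_bound_of_continuous hc2
  have hK1' : 0 ≤ K1 := (norm_nonneg _).trans (hK1 0)
  have hK2' : 0 ≤ K2 := (norm_nonneg _).trans (hK2 0)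
  refine ⟨K1 * (c / 2) + K2 * (2 * M) + 1, by positivity, fun w => ?_⟩
  have hT : HasDerivAt (T c) (c / 2 * (2 * (deriv Real.smoothTransition
      (2 * w.im / c + 1 / 2) * (2 / c)))) w.im := by
    have h1 : HasDerivAt (fun y : ℝ => 2 * y / c + 1 / 2) (2 / c) w.im := by
      have := (((hasDerivAt_id w.im).const_mul 2).div_const c).add_const (1 / 2)
      exact this.congr_deriv (by simp)
    have h2 : HasDerivAt Real.smoothTransition (deriv Real.smoothTransition
        (2 * w.im / c + 1 / 2)) (2 * w.im / c + 1 / 2) := by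
      have hcd : ContDiff ℝ 1 Real.smoothTransition := by
        exact_mod_cast Real.smoothTransition.contDiff (n := 1)
      exact (hcd.differentiable (by norm_num) _).hasDerivAt
    have h3 := h2.comp w.im h1
    exact ((h3.const_mul 2).sub_const 1).const_mul (c / 2)
  have hTb : |c / 2 * (2 * (deriv Real.smoothTransition
      (2 * w.im / c + 1 / 2) * (2 / c)))| ≤ 2 * M := by
    have e : c / 2 * (2 * (deriv Real.smoothTransition (2 * w.im / c + 1 / 2) * (2 / c)))
        = 2 * deriv Real.smoothTransition (2 * w.im / c + 1 / 2) := by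
      field_simp
    rw [e, abs_mul, abs_of_pos (by norm_num : (0 : ℝ) < 2)]
    linarith [hM (2 * w.im / c + 1 / 2)]
  have g1 : HasFDerivAt (fun w : ℂ => chi w.re) (deriv chi w.re • Complex.reCLM) w := by
    exact (hchid w.re).comp_hasFDerivAt w Complex.reCLM.hasFDerivAt
  have g2 : HasFDerivAt (fun w : ℂ => T c w.im) ((c / 2 * (2 * (deriv Real.smoothTransition
      (2 * w.im / c + 1 / 2) * (2 / c)))) • Complex.imCLM) w := by
    exact hT.comp_hasFDerivAt w Complex.imCLM.hasFDerivAt
  refine ⟨_, g1.mul g2, ?_⟩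
  have hcosh : 0 < cosh w.re := Real.cosh_pos _
  have b1 : |deriv chi w.re| ≤ K1 / cosh w.re := by
    rw [le_div_iff₀ hcosh]
    have := hK1 w.re
    rwa [norm_mul, Real.norm_eq_abs, Real.norm_of_nonneg hcosh.le] at this
  have b2 : |chi w.re| ≤ K2 / cosh w.re := by
    rw [le_div_iff₀ hcosh]
    have := hK2 w.re
    rwa [norm_mul, Real.norm_eq_abs, Real.norm_of_nonneg hcosh.le] at this
  have n1 : ‖Complex.reCLM‖ ≤ 1 := by simp
  have n2 : ‖Complex.imCLM‖ ≤ 1 := by simp
  calc _ ≤ ‖chi w.re • ((c / 2 * (2 * (deriv Real.smoothTransition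
        (2 * w.im / c + 1 / 2) * (2 / c)))) • Complex.imCLM)‖
        + ‖T c w.im • (deriv chi w.re • Complex.reCLM)‖ := norm_add_le _ _
    _ ≤ (K2 / cosh w.re) * ((2 * M) * 1) + (c / 2) * ((K1 / cosh w.re) * 1) := by
        rw [norm_smul, norm_smul, norm_smul, norm_smul, Real.norm_eq_abs, Real.norm_eq_abs,
          Real.norm_eq_abs, Real.norm_eq_abs]
        have := T_abs hc w.im
        gcongr
    _ ≤ (K1 * (c / 2) + K2 * (2 * M) + 1) / cosh w.re := by
        have e : (K2 / cosh w.re) * ((2 * M) * 1) + (c / 2) * ((K1 / cosh w.re) * 1)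
            = (K1 * (c / 2) + K2 * (2 * M)) / cosh w.re := by ring
        rw [e]
        exact div_le_div_of_nonneg_right (by linarith) hcosh.le

/-- The number of the strip. -/
noncomputable def nn (z : ℂ) : ℤ := ⌊z.im / (2 * π) + 1 / 2⌋

/-- The function detecting the strips. -/
noncomputable def Psi (f : ℂ → ℂ) (c : ℝ) (z : ℂ) : ℝ :=
  nn z * c + Q c (f z - nn z * (c * Complex.I))

section

variable {f : ℂ → ℂ} (h0 : f 0 = 0) (hf : ∀ z, HasDerivAt f (Complex.exp (Complex.cosh z)) z)

include h0 hf

theorem Psi_slope : ∃ K : ℝ, 0 < K ∧ ∀ z : ℂ, ∃ L : ℂ →L[ℝ] ℝ,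
    HasFDerivAt (Psi f (f ((2 * π : ℝ) * Complex.I)).im) L z ∧ ‖L‖ ≤ K * exp (U f z) := by
  set c := (f ((2 * π : ℝ) * Complex.I)).im with hcdef
  have hc : 0 < c := c_pos h0 hf
  obtain ⟨K, hK, hQ⟩ := Q_deriv hc
  refine ⟨K, hK, fun z => ?_⟩
  have hp : 0 < 2 * π := by positivity
  have hcontx : Continuous (fun w : ℂ => w.im / (2 * π) + 1 / 2) := by fun_prop
  by_cases hz : (nn z : ℝ) = z.im / (2 * π) + 1 / 2
  · -- on a boundary line
    set k : ℤ := nn z - 1 with hk
    have hkz : z.im = (2 * k + 1) * π := by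
      have h1 : z.im / (2 * π) = (k : ℝ) + 1 / 2 := by
        rw [hk]
        push_cast
        linarith
      rw [div_eq_iff hp.ne'] at h1
      rw [h1]
      ring
    obtain ⟨hre, him⟩ := on_line h0 hf hkz
    rw [← hcdef] at him
    have hfc : Continuous f := continuous_iff_continuousAt.2 fun w => (hf w).continuousAt
    have e1 : ∀ᶠ w in 𝓝 z, |(f w).re| < π + 1 :=
      (Complex.continuous_re.comp hfc).abs.continuousAt.eventually_lt continuousAt_const
        (by simpa using lt_of_le_of_lt hre (by linarith))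
    have e2 : ∀ᶠ w in 𝓝 z, |(f w).im - (k + 1 / 2) * c| < c / 4 :=
      (((Complex.continuous_im.comp hfc).sub continuous_const).abs.continuousAt.eventually_lt
        continuousAt_const (by simpa [him] using hc))
    have e3 : ∀ᶠ w in 𝓝 z, |w.im / (2 * π) + 1 / 2 - nn z| < 1 / 2 :=
      ((hcontx.sub continuous_const).abs.continuousAt.eventually_lt
        continuousAt_const (by simp [hz]))
    refine ⟨0, ?_, by simpa using (by positivity : 0 ≤ K * exp (U f z))⟩
    refine (hasFDerivAt_const ((k + 1 / 2) * c) z).congr_of_eventuallyEq ?_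
    filter_upwards [e1, e2, e3] with w h1 h2 h3
    have hchi : chi (f w).re = 1 := chi_one h1.le
    rw [abs_lt] at h2 h3
    have hn : nn w = k ∨ nn w = k + 1 := by
      by_cases h4 : w.im / (2 * π) + 1 / 2 < nn z
      · left
        unfold nn
        rw [Int.floor_eq_iff, hk]
        push_cast
        constructor <;> linarith
      · right
        unfold nn
        rw [Int.floor_eq_iff, hk]
        push_cast
        constructor <;> linarith
    unfold Psi Q
    have hre' : (f w - (nn w : ℂ) * (c * Complex.I)).re = (f w).re := by simp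
    have him' : (f w - (nn w : ℂ) * (c * Complex.I)).im = (f w).im - nn w * c := by simp
    rw [hre', him', hchi]
    rcases hn with h | h
    · rw [h, T_right hc (by linarith)]
      ring
    · rw [h, T_left hc (by push_cast; linarith)]
      push_cast
      ring
  · -- inside a strip
    have hlt : (nn z : ℝ) < z.im / (2 * π) + 1 / 2 :=
      lt_of_le_of_ne (Int.floor_le _) hz
    have hlt2 : z.im / (2 * π) + 1 / 2 < nn z + 1 := Int.lt_floor_add_one _
    have e1 : ∀ᶠ w in 𝓝 z, (nn z : ℝ) < w.im / (2 * π) + 1 / 2 :=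
      continuousAt_const.eventually_lt hcontx.continuousAt hlt
    have e2 : ∀ᶠ w : ℂ in 𝓝 z, w.im / (2 * π) + 1 / 2 < nn z + 1 :=
      hcontx.continuousAt.eventually_lt continuousAt_const hlt2
    obtain ⟨L, hL, hLn⟩ := hQ (f z - nn z * (c * Complex.I))
    have hF : HasFDerivAt (fun w => f w - nn z * (c * Complex.I))
        ((ContinuousLinearMap.toSpanSingleton ℂ
          (Complex.exp (Complex.cosh z))).restrictScalars ℝ) z :=
      (((hf z).sub_const (nn z * (c * Complex.I))).hasFDerivAt).restrictScalars ℝ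
    have hcomp := hL.comp z hF
    refine ⟨_, ((hcomp.const_add (nn z * c)).congr_of_eventuallyEq ?_), ?_⟩
    · filter_upwards [e1, e2] with w h1 h2
      have hn : nn w = nn z := by
        unfold nn at h1 h2 ⊢
        rw [Int.floor_eq_iff]
        exact ⟨h1.le, h2⟩
      unfold Psi
      rw [hn]
      rfl
    · rw [exp_U]
      have hre' : (f z - (nn z : ℂ) * (c * Complex.I)).re = (f z).re := by simp
      rw [hre'] at hLn
      refine (ContinuousLinearMap.opNorm_comp_le _ _).trans ?_
      rw [ContinuousLinearMap.norm_restrictScalars, ContinuousLinearMap.norm_toSpanSingleton]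
      calc ‖L‖ * ‖Complex.exp (Complex.cosh z)‖
          ≤ K / cosh (f z).re * ‖Complex.exp (Complex.cosh z)‖ := by gcongr
        _ = K * (‖Complex.exp (Complex.cosh z)‖ / cosh (f z).re) := by ring

theorem Psi_at (k : ℕ) : Psi f (f ((2 * π : ℝ) * Complex.I)).im (k * ((2 * π : ℝ) * Complex.I))
    = k * (f ((2 * π : ℝ) * Complex.I)).im + Q (f ((2 * π : ℝ) * Complex.I)).im 0 := by
  have hp : 0 < 2 * π := by positivity
  have hn : nn (k * ((2 * π : ℝ) * Complex.I)) = k := by
    unfold nn
    have h1 : ((k : ℂ) * ((2 * π : ℝ) * Complex.I)).im / (2 * π) = k := by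
      have : ((k : ℂ) * ((2 * π : ℝ) * Complex.I)).im = k * (2 * π) := by simp
      rw [this]
      field_simp
    rw [h1, Int.floor_eq_iff]
    push_cast
    constructor <;> linarith
  have hs := shift h0 hf 0 k
  rw [h0, zero_add, zero_add] at hs
  unfold Psi
  rw [hn]
  have h2 : ((k : ℤ) : ℂ) = (k : ℂ) := by push_cast; rfl
  have h3 : ((k : ℤ) : ℝ) = (k : ℝ) := by push_cast; rfl
  rw [h2] at hs ⊢
  rw [h3, hs, sub_self]

theorem diam_top : confDiam (U f) = ⊤ := by
  obtain ⟨K, hK, hP⟩ := Psi_slope h0 hf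
  set c := (f ((2 * π : ℝ) * Complex.I)).im with hcdef
  have hc : 0 < c := c_pos h0 hf
  have hcont : Continuous (U f) := (U_contDiff hf).continuous
  have hPc : Continuous (Psi f c) := continuous_iff_continuousAt.2 fun z => by
    obtain ⟨L, hL, _⟩ := hP z
    exact hL.continuousAt
  have hb : ∀ k : ℕ, ENNReal.ofReal (k * (c / K)) ≤ confDiam (U f) := by
    intro k
    have h1 := dist_bound hcont hPc hK (fun z => by
      obtain ⟨L, hL, hLn⟩ := hP z
      exact slope_of_fderiv hL hLn) ((0 : ℕ) * ((2 * π : ℝ) * Complex.I))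
      (k * ((2 * π : ℝ) * Complex.I))
    rw [hcdef, Psi_at h0 hf k, Psi_at h0 hf 0, ← hcdef] at h1
    have h2 : (k * c + Q c 0 - ((0 : ℕ) * c + Q c 0)) / K = k * (c / K) := by
      push_cast
      ring
    rw [h2] at h1
    exact h1.trans (le_iSup_of_le _ (le_iSup_of_le _ (le_refl _)))
  refine ENNReal.eq_top_of_forall_nnreal_le fun r => ?_
  obtain ⟨k, hk⟩ := exists_nat_gt ((r : ℝ) / (c / K))
  refine le_trans ?_ (hb k)
  rw [div_lt_iff₀ (by positivity)] at hk
  rw [← ENNReal.ofReal_coe_nnreal]
  exact ENNReal.ofReal_le_ofReal hk.le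

end

/-- There is a smooth solution of the Liouville equation on the plane whose metric has infinite
diameter. -/
theorem result : ∃ u : ℂ → ℝ, ContDiff ℝ (⊤ : ℕ∞) u ∧ (∀ z, Δ u z + exp (2 * u z) = 0) ∧
    confDiam u = ⊤ := by
  obtain ⟨f, h0, hf⟩ := exists_f
  exact ⟨U f, U_contDiff hf, U_lap hf, diam_top h0 hf⟩

end Pool.Agent.Results.MP_ae50c7_an.InfiniteDiameter
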